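import Pool.Agent.H69.OC.Targets

/-!
# Module EAR: adding an ear
-/

set_option autoImplicit false
set_option linter.unusedSectionVars false
open scoped Classical
open Finset

namespace Pool.Agent.H20.OC

open Pool.Agent.H69.OC Pool.Agent.H69.OC.DG

variable {V D : Type} [Fintype V] [Fintype D] {G : DG V D}

theorem ee_mono {P P' Q Q' : Finset V} (h : P ⊆ P') (h' : Q ⊆ Q') : G.ee P Q ⊆ G.ee P' Q' := by
  intro d hd
  rw [mem_ee] at hd ⊢
  exact ⟨h hd.1, h' hd.2⟩

theorem ee_union_left (P Q R : Finset V) (h : Disjoint P Q) :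
    (G.ee (P ∪ Q) R).card = (G.ee P R).card + (G.ee Q R).card := by
  rw [← card_union_of_disjoint]
  · congr 1
    ext d
    simp only [mem_ee, mem_union]
    tauto
  · rw [disjoint_left]
    intro d h1 h2
    rw [mem_ee] at h1 h2
    exact (disjoint_left.1 h) h1.1 h2.1

theorem ee_union_right (P Q R : Finset V) (h : Disjoint Q R) :
    (G.ee P (Q ∪ R)).card = (G.ee P Q).card + (G.ee P R).card := by
  rw [ee_comm, ee_union_left Q R P h, ee_comm Q P, ee_comm R P]

theorem t_ear : T_EAR := by
  intro V D _ _ G B Q hB hdis hQ h2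
  -- minimal connected subset with two edges to `B`
  let S : Finset (Finset V) := sel (univ : Finset (Finset V)) fun Q' =>
    Q' ⊆ Q ∧ G.Conn univ Q' ∧ 2 ≤ (G.ee Q' B).card
  have hne : S.Nonempty := ⟨Q, mem_sel.2 ⟨mem_univ _, Subset.refl _, hQ, h2⟩⟩
  obtain ⟨Q', hQ'S, hmin⟩ := exists_min_image S Finset.card hne
  obtain ⟨-, hQ'Q, hQ'c, hQ'2⟩ := mem_sel.1 hQ'S
  have hdis' : Disjoint Q' B := disjoint_of_subset_left hQ'Q hdis
  have key : ∀ Z ⊆ Q', Z.Nonempty → 2 ≤ (G.ee Z ((B ∪ Q') \ Z)).card := by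
    intro Z hZ hZne
    by_cases hZQ : Z = Q'
    · subst hZQ
      have : (B ∪ Z) \ Z = B := by
        ext v
        have h3 : v ∈ Z → v ∉ B := fun h => disjoint_left.1 hdis' h
        simp only [mem_sdiff, mem_union]
        tauto
      rw [this]
      exact hQ'2
    · by_contra hlt
      have hZB : Disjoint B (Q' \ Z) := by
        rw [disjoint_left]
        intro v h1 h3
        exact (disjoint_left.1 hdis') (mem_sdiff.1 h3).1 h1
      have e1 : (B ∪ Q') \ Z = B ∪ (Q' \ Z) := by
        ext v
        have h3 : v ∈ Q' → v ∉ B := fun h => disjoint_left.1 hdis' h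
        have h4 : v ∈ Z → v ∈ Q' := fun h => hZ h
        simp only [mem_sdiff, mem_union]
        tauto
      rw [e1, ee_union_right Z B (Q' \ Z) hZB] at hlt
      obtain ⟨d, -, hd1, hd2, hd3⟩ := hQ'c Z hZ hZne hZQ
      have h3 : 1 ≤ (G.ee Z (Q' \ Z)).card :=
        card_pos.2 ⟨d, mem_ee.2 ⟨hd1, mem_sdiff.2 ⟨hd2, hd3⟩⟩⟩
      have h4 : (G.ee Z B).card = 0 := by omega
      have h5 : (G.ee Z (Q' \ Z)).card ≤ 1 := by omega
      have hR : (Q' \ Z).Nonempty := ⟨_, mem_sdiff.2 ⟨hd2, hd3⟩⟩
      have e2 : Q' = Z ∪ (Q' \ Z) := by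
        ext v
        have h4 : v ∈ Z → v ∈ Q' := fun h => hZ h
        simp only [mem_sdiff, mem_union]
        tauto
      have h6 : (G.ee Q' B).card = (G.ee Z B).card + (G.ee (Q' \ Z) B).card := by
        conv_lhs => rw [e2]
        exact ee_union_left Z (Q' \ Z) B disjoint_sdiff
      have hconn : G.Conn univ (Q' \ Z) := by
        intro P hP hPne hPR
        by_contra hno
        push Not at hno
        have hPQ : P ⊆ Q' := hP.trans sdiff_subset
        have hne1 : P ≠ Q' := by
          rintro rfl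
          obtain ⟨z, hz⟩ := hZne
          exact (mem_sdiff.1 (hP (hZ hz))).2 hz
        obtain ⟨d1, -, a1, a2, a3⟩ := hQ'c P hPQ hPne hne1
        have a4 : G.tgt d1 ∈ Z := by
          by_contra h
          exact a3 (hno d1 (mem_univ _) a1 (mem_sdiff.2 ⟨a2, h⟩))
        have hne2 : ((Q' \ Z) \ P).Nonempty := by
          rw [nonempty_iff_ne_empty]
          intro h
          rw [sdiff_eq_empty_iff_subset] at h
          exact hPR (Subset.antisymm hP h)
        have hne3 : (Q' \ Z) \ P ≠ Q' := by
          intro h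
          obtain ⟨p, hp⟩ := hPne
          have := h.symm ▸ hPQ hp
          exact (mem_sdiff.1 this).2 hp
        obtain ⟨d2, -, b1, b2, b3⟩ := hQ'c ((Q' \ Z) \ P) (sdiff_subset.trans sdiff_subset) hne2 hne3
        have b4 : G.tgt d2 ∈ Z := by
          by_contra h
          have h7 : G.tgt d2 ∈ P := by
            by_contra h8
            exact b3 (mem_sdiff.2 ⟨mem_sdiff.2 ⟨b2, h⟩, h8⟩)
          have h9 := hno (G.inv d2) (mem_univ _) h7 (by rw [tgt_inv]; exact (mem_sdiff.1 b1).1)
          rw [tgt_inv] at h9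
          exact (mem_sdiff.1 b1).2 h9
        have c1 : G.inv d1 ∈ G.ee Z (Q' \ Z) :=
          mem_ee.2 ⟨a4, by rw [tgt_inv]; exact hP a1⟩
        have c2 : G.inv d2 ∈ G.ee Z (Q' \ Z) :=
          mem_ee.2 ⟨b4, by rw [tgt_inv]; exact (mem_sdiff.1 b1).1⟩
        have c3 := card_le_one.1 h5 _ c1 _ c2
        have c4 := inv_inj c3
        subst c4
        exact (mem_sdiff.1 b1).2 a1
      have hmem : Q' \ Z ∈ S :=
        mem_sel.2 ⟨mem_univ _, sdiff_subset.trans hQ'Q, hconn, by omega⟩
      have h7 := hmin _ hmem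
      have h8 : (Q' \ Z).card < Q'.card := by
        apply card_lt_card
        refine ⟨sdiff_subset, fun h => ?_⟩
        obtain ⟨z, hz⟩ := hZne
        exact (mem_sdiff.1 (h (hZ hz))).2 hz
      omega
  refine ⟨B ∪ Q', subset_union_left, union_subset_union_right hQ'Q, ?_, ?_⟩
  · intro h
    obtain ⟨d, hd⟩ : (G.ee Q' B).Nonempty := card_pos.1 (by omega)
    have h3 := (mem_ee.1 hd).1
    exact (disjoint_left.1 hdis') h3 (h ▸ mem_union_right _ h3)
  · intro Z hZ hZne hZB
    by_cases c1 : (Z ∩ B).Nonempty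
    · by_cases c2 : B ⊆ Z
      · have hsub : (B ∪ Q') \ Z ⊆ Q' := by
          intro v hv
          rw [mem_sdiff, mem_union] at hv
          rcases hv.1 with h | h
          · exact absurd (c2 h) hv.2
          · exact h
        have hne2 : ((B ∪ Q') \ Z).Nonempty := by
          rw [nonempty_iff_ne_empty]
          intro h
          rw [sdiff_eq_empty_iff_subset] at h
          exact hZB (Subset.antisymm hZ h)
        have h3 := key _ hsub hne2
        rw [ee_comm] at h3
        have e3 : (B ∪ Q') \ ((B ∪ Q') \ Z) = Z := by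
          rw [sdiff_sdiff_right_self]
          exact inf_eq_right.2 hZ
        rw [e3] at h3
        exact h3
      · have h3 := hB (Z ∩ B) inter_subset_right c1 (fun h => c2 (by rw [← h]; exact inter_subset_left))
        refine h3.trans (card_le_card (ee_mono inter_subset_left ?_))
        intro v hv
        rw [mem_sdiff, mem_inter] at hv
        rw [mem_sdiff, mem_union]
        tauto
    · apply key Z _ hZne
      intro v hv
      rcases mem_union.1 (hZ hv) with h | h
      · exact absurd ⟨v, mem_inter.2 ⟨hv, h⟩⟩ c1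
      · exact h

end Pool.Agent.H20.OC
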