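import Pool.Agent.H20.OC.EAR

/-!
# Module EX1: first part of the extremal argument
-/

set_option autoImplicit false
set_option linter.unusedSectionVars false
open scoped Classical
open Finset

namespace Pool.Agent.H20.OC

open Pool.Agent.H69.OC Pool.Agent.H69.OC.DG

/-- a single vertex does not separate the ends of `e` in `G - e` -/
theorem reach_avoid {V D : Type} [Fintype V] [Fintype D] {G : DG V D} (hG : G.Cub) (h3 : G.C3)
    (e : D) (hab : G.src e ≠ G.tgt e) (v : V) (hva : v ≠ G.src e) (hvb : v ≠ G.tgt e) :
    G.Reach (univ \ {e, G.inv e}) {v}ᶜ (G.src e) (G.tgt e) := by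
  by_contra hno
  set H : Finset D := univ \ {e, G.inv e} with hH
  have hHcl : G.Cl H := cl_sdiff_pair cl_univ e
  have memH : ∀ d, d ∈ H ↔ d ≠ e ∧ d ≠ G.inv e := by
    intro d
    simp [hH]
  set Z := G.comp H {v}ᶜ (G.src e) with hZ
  set Z' := {v}ᶜ \ Z with hZ'
  have ha : G.src e ∈ ({v}ᶜ : Finset V) := by
    rw [mem_compl, mem_singleton]
    exact fun h => hva h.symm
  have hb : G.tgt e ∈ ({v}ᶜ : Finset V) := by
    rw [mem_compl, mem_singleton]
    exact fun h => hvb h.symm
  have haZ : G.src e ∈ Z := mem_comp.2 (Reach.refl ha)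
  have hbZ : G.tgt e ∉ Z := fun h => hno (mem_comp.1 h)
  have hbZ' : G.tgt e ∈ Z' := mem_sdiff.2 ⟨hb, hbZ⟩
  have hvZ : v ∉ Z := fun h => by
    have := comp_sub h
    rw [mem_compl, mem_singleton] at this
    exact this rfl
  have hvZ' : v ∉ Z' := fun h => by
    have := (mem_sdiff.1 h).1
    rw [mem_compl, mem_singleton] at this
    exact this rfl
  -- edges between `Z` and `Z'` are only `e`
  have hZZ' : ∀ d, G.src d ∈ Z → G.tgt d ∈ Z' → d = e := by
    intro d h1 h2
    by_contra hd
    by_cases hd2 : d = G.inv e
    · subst hd2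
      rw [src_inv] at h1
      exact hbZ h1
    · have := comp_closed ((memH d).2 ⟨hd, hd2⟩) h1 (mem_sdiff.1 h2).1
      exact (mem_sdiff.1 h2).2 this
  have c1 : 3 ≤ (G.cut univ Z).card :=
    h3 Z ⟨_, haZ⟩ (fun h => hvZ (h ▸ mem_univ v))
  have c2 : 3 ≤ (G.cut univ Z').card :=
    h3 Z' ⟨_, hbZ'⟩ (fun h => hvZ' (h ▸ mem_univ v))
  have s1 : G.cut univ Z ⊆ insert e (G.ee Z {v}) := by
    intro d hd
    rw [mem_cut] at hd
    rw [mem_insert, mem_ee, mem_singleton]
    by_cases h : G.tgt d = v
    · exact Or.inr ⟨hd.2.1, h⟩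
    · left
      apply hZZ' d hd.2.1
      rw [hZ', mem_sdiff, mem_compl, mem_singleton]
      exact ⟨h, hd.2.2⟩
  have s2 : G.cut univ Z' ⊆ insert (G.inv e) (G.ee Z' {v}) := by
    intro d hd
    rw [mem_cut] at hd
    rw [mem_insert, mem_ee, mem_singleton]
    by_cases h : G.tgt d = v
    · exact Or.inr ⟨hd.2.1, h⟩
    · left
      rw [← inv_eq_iff]
      apply hZZ'
      · rw [src_inv]
        by_contra h4
        apply hd.2.2
        rw [hZ', mem_sdiff, mem_compl, mem_singleton]
        exact ⟨h, h4⟩
      · rw [tgt_inv]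
        exact hd.2.1
  have t1 := (card_le_card s1).trans (card_insert_le _ _)
  have t2 := (card_le_card s2).trans (card_insert_le _ _)
  have hdisj : Disjoint Z Z' := by
    rw [hZ']
    exact disjoint_sdiff
  have t3 : (G.ee Z {v}).card + (G.ee Z' {v}).card ≤ 3 := by
    rw [← ee_union_left Z Z' {v} hdisj, ee_comm, ← hG v]
    apply card_le_card
    intro d hd
    rw [mem_ee, mem_singleton] at hd
    rw [mem_sel]
    exact ⟨mem_univ _, hd.1⟩
  omega

theorem reach_comp {V D : Type} [Fintype V] [Fintype D] {G : DG V D} {A : Finset D}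
    (hA : G.Cl A) {X : Finset V} {a b : V} (h : G.Reach A X a b) :
    G.Reach A (G.comp A X a) a b :=
  (conn_comp hA).reach (mem_comp.2 (Reach.refl h.1)) (mem_comp.2 h)

theorem t_ex1 : T_EX1 := by
  intro V D _ _ G hG h3 e hab hV
  set H : Finset D := univ \ {e, G.inv e} with hH
  have hHcl : G.Cl H := cl_sdiff_pair cl_univ e
  have memH : ∀ d, d ∈ H ↔ d ≠ e ∧ d ≠ G.inv e := by
    intro d
    simp [hH]
  -- candidates for `B`
  let S : Finset (Finset V) := sel (univ : Finset (Finset V)) fun B =>
    B.Nonempty ∧ G.BB B ∧ G.Reach H Bᶜ (G.src e) (G.tgt e)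
  obtain ⟨v0, hv0⟩ : ∃ v, v ≠ G.src e ∧ v ≠ G.tgt e := by
    by_contra hno
    push Not at hno
    have : (univ : Finset V) ⊆ {G.src e, G.tgt e} := by
      intro v _
      rw [mem_insert, mem_singleton]
      by_cases h : v = G.src e
      · exact Or.inl h
      · exact Or.inr (hno v h)
    have h1 := (card_le_card this).trans (card_le_two)
    rw [card_univ] at h1
    omega
  have hSne : S.Nonempty := by
    refine ⟨{v0}, mem_sel.2 ⟨mem_univ _, singleton_nonempty _, ?_, reach_avoid hG h3 e hab v0 hv0.1 hv0.2⟩⟩
    intro Z hZ hne hZB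
    rcases Finset.subset_singleton_iff.1 hZ with h | h
    · exact absurd h hne.ne_empty
    · exact absurd h hZB
  obtain ⟨B, hBS, hBmax⟩ := exists_max_image S Finset.card hSne
  obtain ⟨-, hBne, hBB, hBr⟩ := mem_sel.1 hBS
  by_cases hall : ∀ v ∈ Bᶜ, v ≠ G.src e → v ≠ G.tgt e →
      ¬ G.Reach H (Bᶜ \ {v}) (G.src e) (G.tgt e)
  · left
    refine ⟨Bᶜ, hBr.left, hBr.right, ?_, ?_, hBr, hall⟩
    · intro h
      obtain ⟨b, hb⟩ := hBne
      have := mem_univ b
      rw [← h, mem_compl] at this
      exact this hb
    · rw [compl_compl]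
      exact hBB
  · right
    push Not at hall
    obtain ⟨v, hvB, -, -, hvr⟩ := hall
    have P3 : ∀ Q, Disjoint Q B → G.Conn univ Q →
        G.Reach H (B ∪ Q)ᶜ (G.src e) (G.tgt e) → (G.ee Q B).card ≤ 1 := by
      intro Q hQB hQc hQr
      by_contra hlt
      obtain ⟨B', h1, h2, h4, h5⟩ := t_ear V D G B Q hBB hQB hQc (by omega)
      have hmem : B' ∈ S := by
        refine mem_sel.2 ⟨mem_univ _, hBne.mono h1, h5, hQr.mono (Subset.refl _) ?_⟩
        exact compl_subset_compl.2 h2
      have h6 := hBmax _ hmem
      exact h4 (eq_of_subset_of_card_le h1 h6).symm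
    -- candidates for `Z`
    let T : Finset (Finset V) := sel (univ : Finset (Finset V)) fun Z =>
      Z.Nonempty ∧ G.Conn univ Z ∧ Disjoint B Z ∧ G.Reach H (B ∪ Z)ᶜ (G.src e) (G.tgt e)
    have hTne : T.Nonempty := by
      refine ⟨{v}, mem_sel.2 ⟨mem_univ _, singleton_nonempty _, conn_singleton, ?_, ?_⟩⟩
      · rw [disjoint_singleton_right]
        exact mem_compl.1 hvB
      · refine hvr.mono (Subset.refl _) ?_
        intro w hw
        rw [mem_sdiff, mem_compl, mem_singleton] at hw
        rw [mem_compl, mem_union, mem_singleton]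
        tauto
    obtain ⟨Z, hZT, hZmax⟩ := exists_max_image T Finset.card hTne
    obtain ⟨-, hZne, hZc, hBZ, hZr⟩ := mem_sel.1 hZT
    refine ⟨B, Z, hBne, hZne, hBZ, mem_compl.1 hZr.left, mem_compl.1 hZr.right, hZc, ?_, P3, ?_⟩
    · -- connectivity
      by_cases hC : G.comp H (B ∪ Z)ᶜ (G.src e) = (B ∪ Z)ᶜ
      · rw [← hC]
        exact conn_comp hHcl
      · exfalso
        obtain ⟨x, hxC, hx0⟩ : ∃ x ∈ (B ∪ Z)ᶜ, x ∉ G.comp H (B ∪ Z)ᶜ (G.src e) := by
          by_contra hno
          push Not at hno
          exact hC (Subset.antisymm comp_sub hno)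
        set C0 := G.comp H (B ∪ Z)ᶜ (G.src e) with hC0
        set C1 := G.comp H (B ∪ Z)ᶜ x with hC1
        have hxC1 : x ∈ C1 := mem_comp.2 (Reach.refl hxC)
        have hd01 : ∀ y, y ∈ C1 → y ∉ C0 := by
          intro y h1 h0
          rw [hC1, mem_comp] at h1
          rw [hC0, mem_comp] at h0
          exact hx0 (mem_comp.2 (h0.trans (h1.symm hHcl)))
        have haC0 : G.src e ∈ C0 := mem_comp.2 (Reach.refl hZr.left)
        have hbC0 : G.tgt e ∈ C0 := mem_comp.2 hZr
        have haC1 : G.src e ∉ C1 := fun h => hd01 _ h haC0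
        have hbC1 : G.tgt e ∉ C1 := fun h => hd01 _ h hbC0
        have hC1sub : C1 ⊆ (B ∪ Z)ᶜ := comp_sub
        have hC0sub : C0 ⊆ (B ∪ Z)ᶜ := comp_sub
        have hC1c : G.Conn univ C1 := (conn_comp hHcl).mono (subset_univ _)
        -- darts from `C1` end in `C1`, `B` or `Z`
        have hout : ∀ d, G.src d ∈ C1 → G.tgt d ∉ C1 → G.tgt d ∈ B ∨ G.tgt d ∈ Z := by
          intro d h1 h2
          by_contra h4
          have h5 : G.tgt d ∈ (B ∪ Z)ᶜ := by
            rw [mem_compl, mem_union]
            exact h4
          refine h2 (comp_closed ((memH d).2 ⟨?_, ?_⟩) h1 h5)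
          · rintro rfl
            exact haC1 h1
          · rintro rfl
            rw [src_inv] at h1
            exact hbC1 h1
        have hr0 : G.Reach H C0 (G.src e) (G.tgt e) := reach_comp hHcl hZr
        by_cases hedge : ∃ d, G.src d ∈ C1 ∧ G.tgt d ∈ Z
        · obtain ⟨d, hd1, hd2⟩ := hedge
          have hmem : C1 ∪ Z ∈ T := by
            refine mem_sel.2 ⟨mem_univ _, hZne.mono subset_union_right,
              Conn.union cl_univ hC1c hZc (mem_univ d) hd1 hd2, ?_, hr0.mono (Subset.refl _) ?_⟩
            · rw [disjoint_left]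
              intro y h1 h2
              rcases mem_union.1 h2 with h2 | h2
              · have := hC1sub h2
                rw [mem_compl, mem_union] at this
                exact this (Or.inl h1)
              · exact disjoint_left.1 hBZ h1 h2
            · intro y hy
              have h1 := hC0sub hy
              have h2 : y ∉ C1 := fun h => hd01 _ h hy
              rw [mem_compl, mem_union] at h1
              rw [mem_compl, mem_union, mem_union]
              tauto
          have h4 := hZmax _ hmem
          have h5 : Z.card < (C1 ∪ Z).card := by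
            apply card_lt_card
            refine ⟨subset_union_right, fun h => ?_⟩
            have h6 := h (mem_union_left _ hxC1)
            have h7 := hC1sub hxC1
            rw [mem_compl, mem_union] at h7
            exact h7 (Or.inr h6)
          omega
        · have h4 : 3 ≤ (G.cut univ C1).card :=
            h3 C1 ⟨x, hxC1⟩ (fun h => haC1 (h ▸ mem_univ _))
          have h5 : G.cut univ C1 ⊆ G.ee C1 B := by
            intro d hd
            rw [mem_cut] at hd
            rw [mem_ee]
            refine ⟨hd.2.1, ?_⟩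
            rcases hout d hd.2.1 hd.2.2 with h | h
            · exact h
            · exact absurd ⟨d, hd.2.1, h⟩ hedge
          have hdis : Disjoint C1 B := by
            rw [disjoint_left]
            intro y h1 h2
            have := hC1sub h1
            rw [mem_compl, mem_union] at this
            exact this (Or.inl h2)
          have h6 := P3 C1 hdis hC1c (hr0.mono (Subset.refl _) (by
            intro y hy
            have h1 := hC0sub hy
            have h2 : y ∉ C1 := fun h => hd01 _ h hy
            rw [mem_compl, mem_union] at h1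
            rw [mem_compl, mem_union]
            tauto))
          have h7 := card_le_card h5
          omega
    · intro d hd1 hd2 hda hdb hr
      have hmem : {G.src d} ∪ Z ∈ T := by
        refine mem_sel.2 ⟨mem_univ _, hZne.mono subset_union_right,
          Conn.union cl_univ conn_singleton hZc (mem_univ d) (mem_singleton_self _) hd2, ?_,
          hr.mono (Subset.refl _) ?_⟩
        · rw [disjoint_left]
          intro y h1 h2
          rcases mem_union.1 h2 with h2 | h2
          · rw [mem_singleton] at h2
            subst h2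
            rw [mem_compl, mem_union] at hd1
            exact hd1 (Or.inl h1)
          · exact disjoint_left.1 hBZ h1 h2
        · intro y hy
          rw [mem_sdiff, mem_compl, mem_union, mem_singleton] at hy
          rw [mem_compl, mem_union, mem_union, mem_singleton]
          tauto
      have h4 := hZmax _ hmem
      have h5 : Z.card < ({G.src d} ∪ Z).card := by
        apply card_lt_card
        refine ⟨subset_union_right, fun h => ?_⟩
        have h6 := h (mem_union_left _ (mem_singleton_self _))
        rw [mem_compl, mem_union] at hd1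
        exact hd1 (Or.inr h6)
      omega

end Pool.Agent.H20.OC
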