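import Pool.Agent.H20.OC.EAR

/-!
# Module R4: cycles of length four
-/

set_option autoImplicit false
set_option linter.unusedSectionVars false
open scoped Classical
open Finset

namespace Pool.Agent.H20.OC.R4

open Pool.Agent.H69.OC Pool.Agent.H69.OC.DG

variable {V D : Type} [Fintype V] [Fintype D] {G : DG V D}

/-- a cycle of length four with its third darts -/
structure Quad (G : DG V D) (c d : Fin 4 → D) : Prop where
  nxt : ∀ i, G.tgt (c i) = G.src (c (i + 1))
  inj : ∀ i j, G.src (c i) = G.src (c j) → i = j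
  star : ∀ i x, G.src x = G.src (c i) ↔ (x = c i ∨ x = G.inv (c (i - 1)) ∨ x = d i)
  ne1 : ∀ i, d i ≠ c i
  ne2 : ∀ i, d i ≠ G.inv (c (i - 1))
  out : ∀ i j, G.tgt (d i) ≠ G.src (c j)

theorem fin4 : ∀ i : Fin 4, i ≠ i + 1 + 1 := by decide

namespace Quad

variable {c d : Fin 4 → D} (h : Quad G c d)
include h

theorem srcd (i : Fin 4) : G.src (d i) = G.src (c i) := (h.star i _).2 (Or.inr (Or.inr rfl))

theorem srcic (i : Fin 4) : G.src (G.inv (c i)) = G.src (c (i + 1)) := by
  rw [src_inv, h.nxt]

theorem c_inj {i j : Fin 4} (hij : c i = c j) : i = j := h.inj i j (by rw [hij])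

theorem ic_ne_c (i j : Fin 4) : G.inv (c i) ≠ c j := by
  intro hh
  have h1 := h.srcic i
  rw [hh] at h1
  have h2 := h.inj _ _ h1
  subst h2
  have h3 : G.tgt (G.inv (c i)) = G.tgt (c (i + 1)) := by rw [hh]
  rw [tgt_inv, h.nxt] at h3
  exact fin4 i (h.inj _ _ h3)

theorem d_ne_c (i j : Fin 4) : d i ≠ c j := by
  intro hh
  have h1 := h.srcd i
  rw [hh] at h1
  have h2 := h.inj _ _ h1
  subst h2
  exact h.ne1 _ hh

theorem d_ne_ic (i j : Fin 4) : d i ≠ G.inv (c j) := by
  intro hh
  have h1 := h.srcd i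
  rw [hh, h.srcic] at h1
  have h2 := h.inj _ _ h1
  have h3 : j = i - 1 := eq_sub_of_add_eq h2
  subst h3
  exact h.ne2 _ hh

theorem id_ne_c (i j : Fin 4) : G.inv (d i) ≠ c j := by
  intro hh
  have : G.src (G.inv (d i)) = G.src (c j) := by rw [hh]
  rw [src_inv] at this
  exact h.out i j this

theorem id_ne_ic (i j : Fin 4) : G.inv (d i) ≠ G.inv (c j) := by
  intro hh
  exact h.d_ne_c i j (inv_inj hh)

theorem star_card (i : Fin 4) (q : D → Prop) :
    (sel univ fun x => G.src x = G.src (c i) ∧ q x).card =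
      (if q (c i) then 1 else 0) + (if q (G.inv (c (i - 1))) then 1 else 0) +
        (if q (d i) then 1 else 0) := by
  have e : (sel univ fun x => G.src x = G.src (c i) ∧ q x) =
      Finset.filter q {c i, G.inv (c (i - 1)), d i} := by
    ext x
    rw [mem_sel, h.star i x, mem_filter, mem_insert, mem_insert, mem_singleton]
    simp only [mem_univ, true_and]
  have n1 : c i ∉ ({G.inv (c (i - 1)), d i} : Finset D) := by
    rw [mem_insert, mem_singleton]
    rintro (h1 | h1)
    · exact h.ic_ne_c (i - 1) i h1.symm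
    · exact h.ne1 i h1.symm
  have n2 : G.inv (c (i - 1)) ∉ ({d i} : Finset D) := by
    rw [mem_singleton]
    exact fun h1 => h.ne2 i h1.symm
  rw [e, card_filter, sum_insert n1, sum_insert n2, sum_singleton, add_assoc]

end Quad

/-- labels which are correct outside the cycle -/
def Ok (G : DG V D) (c : Fin 4 → D) (mu : D → ℕ) : Prop :=
  (∀ v, (∀ i, v ≠ G.src (c i)) → G.BalAt univ mu v) ∧
  ∀ x, ((∀ i, G.src x ≠ G.src (c i)) ∨ (∀ i, G.tgt x ≠ G.src (c i))) → mu x ≠ mu (G.inv x)

/-- labels: `p i` on `c i`, `q i` on `inv (c i)`, otherwise `mu` -/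
noncomputable def lab (G : DG V D) (c : Fin 4 → D) (mu : D → ℕ) (p q : Fin 4 → ℕ) (x : D) : ℕ :=
  if h : ∃ i, x = c i then p h.choose else if h : ∃ i, x = G.inv (c i) then q h.choose else mu x

section lab

variable {c d : Fin 4 → D} (h : Quad G c d) (mu : D → ℕ) (p q : Fin 4 → ℕ)
include h

theorem lab_c (i : Fin 4) : lab G c mu p q (c i) = p i := by
  have hex : ∃ j, c i = c j := ⟨i, rfl⟩
  unfold lab
  rw [dif_pos hex]
  congr 1
  exact (h.c_inj hex.choose_spec).symm

theorem lab_ic (i : Fin 4) : lab G c mu p q (G.inv (c i)) = q i := by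
  have hno : ¬ ∃ j, G.inv (c i) = c j := by
    rintro ⟨j, hj⟩
    exact h.ic_ne_c i j hj
  have hex : ∃ j, G.inv (c i) = G.inv (c j) := ⟨i, rfl⟩
  unfold lab
  rw [dif_neg hno, dif_pos hex]
  congr 1
  exact (h.c_inj (inv_inj hex.choose_spec)).symm

omit h in
theorem lab_o {x : D} (h1 : ∀ i, x ≠ c i) (h2 : ∀ i, x ≠ G.inv (c i)) :
    lab G c mu p q x = mu x := by
  unfold lab
  rw [dif_neg (by rintro ⟨j, hj⟩; exact h1 j hj), dif_neg (by rintro ⟨j, hj⟩; exact h2 j hj)]

/-- extension lemma -/
theorem ext (hok : Ok G c mu) (hpq : ∀ i, p i ≠ q i)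
    (hb : ∀ i k, (if p i = k then 1 else 0) + (if q (i - 1) = k then 1 else 0) +
        (if mu (d i) = k then 1 else 0) =
      (if q i = k then 1 else 0) + (if p (i - 1) = k then 1 else 0) +
        (if mu (G.inv (d i)) = k then 1 else 0)) :
    ∃ lam, G.Cov univ lam := by
  refine ⟨lab G c mu p q, ?_, ?_⟩
  · intro x _
    by_cases h1 : ∃ i, x = c i
    · obtain ⟨i, rfl⟩ := h1
      rw [lab_c h, lab_ic h]
      exact hpq i
    · by_cases h2 : ∃ i, x = G.inv (c i)
      · obtain ⟨i, rfl⟩ := h2
        rw [lab_ic h, G.inv_inv, lab_c h]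
        exact (hpq i).symm
      · push Not at h1 h2
        rw [lab_o mu p q h1 h2, lab_o mu p q]
        · apply hok.2
          by_cases h3 : ∃ i, G.src x = G.src (c i)
          · obtain ⟨i, hi⟩ := h3
            right
            rcases (h.star i x).1 hi with h4 | h4 | h4
            · exact absurd h4 (h1 i)
            · exact absurd h4 (h2 _)
            · subst h4
              exact fun j => h.out i j
          · left
            push Not at h3
            exact h3
        · intro i hi
          exact h2 i (by rw [← hi, G.inv_inv])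
        · intro i hi
          exact h1 i (inv_inj hi)
  · intro v k
    by_cases hv : ∃ i, v = G.src (c i)
    · obtain ⟨i, rfl⟩ := hv
      rw [h.star_card i (fun x => lab G c mu p q x = k),
        h.star_card i (fun x => lab G c mu p q (G.inv x) = k)]
      rw [lab_c h, lab_ic h, lab_ic h, G.inv_inv, lab_c h,
        lab_o mu p q (fun j => h.d_ne_c i j) (fun j => h.d_ne_ic i j),
        lab_o mu p q (fun j => h.id_ne_c i j) (fun j => h.id_ne_ic i j)]
      convert hb i k
    · push Not at hv
      have hx : ∀ x, G.src x = v → (∀ i, x ≠ c i) ∧ (∀ i, x ≠ G.inv (c i)) := by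
        intro x hx
        constructor
        · rintro i rfl
          exact hv i hx.symm
        · rintro i rfl
          rw [h.srcic] at hx
          exact hv _ hx.symm
      have h1 := hok.1 v hv k
      have e1 : (sel univ fun x => G.src x = v ∧ lab G c mu p q x = k) =
          sel univ fun x => G.src x = v ∧ mu x = k := by
        apply sel_congr
        intro x
        constructor
        · rintro ⟨h2, h3, h4⟩
          rw [lab_o mu p q (hx x h3).1 (hx x h3).2] at h4
          exact ⟨h2, h3, h4⟩
        · rintro ⟨h2, h3, h4⟩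
          refine ⟨h2, h3, ?_⟩
          rw [lab_o mu p q (hx x h3).1 (hx x h3).2]
          exact h4
      have hx2 : ∀ x, G.src x = v → lab G c mu p q (G.inv x) = mu (G.inv x) := by
        intro x hxv
        apply lab_o
        · intro i hi
          exact (hx x hxv).2 i (by rw [← hi, G.inv_inv])
        · intro i hi
          exact (hx x hxv).1 i (inv_inj hi)
      have e2 : (sel univ fun x => G.src x = v ∧ lab G c mu p q (G.inv x) = k) =
          sel univ fun x => G.src x = v ∧ mu (G.inv x) = k := by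
        apply sel_congr
        intro x
        constructor
        · rintro ⟨h2, h3, h4⟩
          rw [hx2 x h3] at h4
          exact ⟨h2, h3, h4⟩
        · rintro ⟨h2, h3, h4⟩
          refine ⟨h2, h3, ?_⟩
          rw [hx2 x h3]
          exact h4
      rw [e1, e2]
      exact h1

end lab

/-- explicit form of the extension lemma: `p i` = label of `c i`, `q i` = label of its reverse -/
theorem ext' {c d : Fin 4 → D} (h : Quad G c d) (mu : D → ℕ) (hok : Ok G c mu)
    (p0 q0 p1 q1 p2 q2 p3 q3 : ℕ) (h0 : p0 ≠ q0) (h1 : p1 ≠ q1) (h2 : p2 ≠ q2) (h3 : p3 ≠ q3)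
    (b0 : ∀ k, (if p0 = k then 1 else 0) + (if q3 = k then 1 else 0) +
        (if mu (d 0) = k then 1 else 0) = (if q0 = k then 1 else 0) + (if p3 = k then 1 else 0) +
        (if mu (G.inv (d 0)) = k then 1 else 0))
    (b1 : ∀ k, (if p1 = k then 1 else 0) + (if q0 = k then 1 else 0) +
        (if mu (d 1) = k then 1 else 0) = (if q1 = k then 1 else 0) + (if p0 = k then 1 else 0) +
        (if mu (G.inv (d 1)) = k then 1 else 0))
    (b2 : ∀ k, (if p2 = k then 1 else 0) + (if q1 = k then 1 else 0) +
        (if mu (d 2) = k then 1 else 0) = (if q2 = k then 1 else 0) + (if p1 = k then 1 else 0) +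
        (if mu (G.inv (d 2)) = k then 1 else 0))
    (b3 : ∀ k, (if p3 = k then 1 else 0) + (if q2 = k then 1 else 0) +
        (if mu (d 3) = k then 1 else 0) = (if q3 = k then 1 else 0) + (if p2 = k then 1 else 0) +
        (if mu (G.inv (d 3)) = k then 1 else 0)) :
    ∃ lam, G.Cov univ lam := by
  refine ext h mu ![p0, p1, p2, p3] ![q0, q1, q2, q3] hok ?_ ?_
  · intro i
    fin_cases i
    · exact h0
    · exact h1
    · exact h2
    · exact h3
  · intro i k
    fin_cases i
    · exact b0 k
    · exact b1 k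
    · exact b2 k
    · exact b3 k

/-- patterns (i)-(iv) -/
theorem patt {c d : Fin 4 → D} (h : Quad G c d) (mu : D → ℕ) (hok : Ok G c mu)
    (a b e f : ℕ) (hab : a ≠ b) (hef : e ≠ f)
    (m0 : mu (d 0) = a) (n0 : mu (G.inv (d 0)) = b) (m1 : mu (d 1) = b) (n1 : mu (G.inv (d 1)) = a)
    (m2 : mu (d 2) = e) (n2 : mu (G.inv (d 2)) = f) (m3 : mu (d 3) = f) (n3 : mu (G.inv (d 3)) = e)
    (hno : ¬ (e = b ∧ f = a)) : ∃ lam, G.Cov univ lam := by
  by_cases h1 : b = f
  · subst h1
    refine ext' h mu hok (a + b + e + 1) a (a + b + e + 1) b (a + b + e + 1) e (a + b + e + 1) b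
      (by omega) (by omega) (by omega) (by omega) ?_ ?_ ?_ ?_
    · intro k
      rw [m0, n0]
      ring
    · intro k
      rw [m1, n1]
      ring
    · intro k
      rw [m2, n2]
      ring
    · intro k
      rw [m3, n3]
      ring
  · by_cases h2 : a = e
    · subst h2
      refine ext' h mu hok b (a + b + f + 1) a (a + b + f + 1) f (a + b + f + 1) a (a + b + f + 1)
        (by omega) (by omega) (by omega) (by omega) ?_ ?_ ?_ ?_
      · intro k
        rw [m0, n0]
        ring
      · intro k
        rw [m1, n1]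
        ring
      · intro k
        rw [m2, n2]
        ring
      · intro k
        rw [m3, n3]
        ring
    · by_cases h3 : e = b
      · have h4 : f ≠ a := fun h5 => hno ⟨h3, h5⟩
        refine ext' h mu hok b f a f a e a f
          (by omega) (by omega) (by omega) (by omega) ?_ ?_ ?_ ?_
        · intro k
          rw [m0, n0]
          ring
        · intro k
          rw [m1, n1]
          ring
        · intro k
          rw [m2, n2]
          ring
        · intro k
          rw [m3, n3]
          ring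
      · refine ext' h mu hok e a e b f b e b
          (by omega) (by omega) (by omega) (by omega) ?_ ?_ ?_ ?_
        · intro k
          rw [m0, n0]
          ring
        · intro k
          rw [m1, n1]
          ring
        · intro k
          rw [m2, n2]
          ring
        · intro k
          rw [m3, n3]
          ring

/-- pattern (v) -/
theorem patt5 {c d : Fin 4 → D} (h : Quad G c d) (mu : D → ℕ) (hok : Ok G c mu)
    (w x y z : ℕ) (hwx : w ≠ x) (hwy : w ≠ y) (hxz : x ≠ z) (hyz : y ≠ z)
    (m0 : mu (d 0) = w) (n0 : mu (G.inv (d 0)) = z) (m1 : mu (d 1) = y) (n1 : mu (G.inv (d 1)) = x)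
    (m2 : mu (d 2) = z) (n2 : mu (G.inv (d 2)) = w) (m3 : mu (d 3) = x)
    (n3 : mu (G.inv (d 3)) = y) : ∃ lam, G.Cov univ lam := by
  refine ext' h mu hok y w x w x z y z
    (by omega) (by omega) (by omega) (by omega) ?_ ?_ ?_ ?_
  · intro k
    rw [m0, n0]
    ring
  · intro k
    rw [m1, n1]
    ring
  · intro k
    rw [m2, n2]
    ring
  · intro k
    rw [m3, n3]
    ring

/-- relabelling a path outside the cycle by a fresh label -/
theorem relab {c : Fin 4 → D} (mu : D → ℕ) (hok : Ok G c mu) (S : Finset D) (l k : ℕ)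
    (hS : ∀ x ∈ S, mu x = l ∧ ((∀ i, G.src x ≠ G.src (c i)) ∨ (∀ i, G.tgt x ≠ G.src (c i))))
    (hb : ∀ v, (∀ i, v ≠ G.src (c i)) → (sel univ fun x => G.src x = v ∧ x ∈ S).card =
      (sel univ fun x => G.src x = v ∧ G.inv x ∈ S).card)
    (hk : ∀ x, mu x ≠ k) : Ok G c (fun x => if x ∈ S then k else mu x) := by
  have hkl : l ≠ k ∨ S = ∅ := by
    by_cases h : S = ∅
    · exact Or.inr h
    · left
      obtain ⟨x, hx⟩ := nonempty_iff_ne_empty.2 h
      rw [← (hS x hx).1]
      exact hk x
  rcases hkl with hkl | hkl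
  · have hSi : ∀ x ∈ S, G.inv x ∉ S := by
      intro x hx hx'
      have h1 := hS x hx
      have h2 := hok.2 x h1.2
      exact h2 (h1.1.trans (hS _ hx').1.symm)
    constructor
    · intro v hv m
      have h1 := hok.1 v hv m
      have h2 := hb v hv
      by_cases hm : m = k
      · subst hm
        have e1 : (sel univ fun x => G.src x = v ∧ (if x ∈ S then m else mu x) = m) =
            sel univ fun x => G.src x = v ∧ x ∈ S := by
          apply sel_congr
          intro x
          by_cases hx : x ∈ S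
          · simp [hx]
          · simp [hx, hk x]
        have e2 : (sel univ fun x => G.src x = v ∧ (if G.inv x ∈ S then m else mu (G.inv x)) = m) =
            sel univ fun x => G.src x = v ∧ G.inv x ∈ S := by
          apply sel_congr
          intro x
          by_cases hx : G.inv x ∈ S
          · simp [hx]
          · simp [hx, hk (G.inv x)]
        rw [e1, e2]
        exact h2
      · by_cases hml : m = l
        · subst hml
          have s1 := card_sel_split univ (fun x => G.src x = v ∧ mu x = m) (fun x => x ∈ S)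
          have s2 := card_sel_split univ (fun x => G.src x = v ∧ mu (G.inv x) = m)
            (fun x => G.inv x ∈ S)
          have t1 : (sel univ fun x => (G.src x = v ∧ mu x = m) ∧ x ∈ S) =
              sel univ fun x => G.src x = v ∧ x ∈ S := by
            apply sel_congr
            intro x
            constructor
            · rintro ⟨h3, ⟨h4, h5⟩, h6⟩
              exact ⟨h3, h4, h6⟩
            · rintro ⟨h3, h4, h6⟩
              exact ⟨h3, ⟨h4, (hS x h6).1⟩, h6⟩
          have t2 : (sel univ fun x => (G.src x = v ∧ mu (G.inv x) = m) ∧ G.inv x ∈ S) =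
              sel univ fun x => G.src x = v ∧ G.inv x ∈ S := by
            apply sel_congr
            intro x
            constructor
            · rintro ⟨h3, ⟨h4, h5⟩, h6⟩
              exact ⟨h3, h4, h6⟩
            · rintro ⟨h3, h4, h6⟩
              exact ⟨h3, ⟨h4, (hS _ h6).1⟩, h6⟩
          have e1 : (sel univ fun x => G.src x = v ∧ (if x ∈ S then k else mu x) = m) =
              sel univ fun x => (G.src x = v ∧ mu x = m) ∧ ¬ x ∈ S := by
            apply sel_congr
            intro x
            by_cases hx : x ∈ S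
            · simp [hx, hkl.symm]
            · simp [hx]
          have e2 : (sel univ fun x => G.src x = v ∧ (if G.inv x ∈ S then k else mu (G.inv x)) = m) =
              sel univ fun x => (G.src x = v ∧ mu (G.inv x) = m) ∧ ¬ G.inv x ∈ S := by
            apply sel_congr
            intro x
            by_cases hx : G.inv x ∈ S
            · simp [hx, hkl.symm]
            · simp [hx]
          rw [e1, e2]
          rw [t1] at s1
          rw [t2] at s2
          omega
        · have e1 : (sel univ fun x => G.src x = v ∧ (if x ∈ S then k else mu x) = m) =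
              sel univ fun x => G.src x = v ∧ mu x = m := by
            apply sel_congr
            intro x
            by_cases hx : x ∈ S
            · have h3 : mu x ≠ m := by
                rw [(hS x hx).1]
                exact fun h => hml h.symm
              have h4 : k ≠ m := fun h => hm h.symm
              simp [hx, h3, h4]
            · simp [hx]
          have e2 : (sel univ fun x => G.src x = v ∧ (if G.inv x ∈ S then k else mu (G.inv x)) = m) =
              sel univ fun x => G.src x = v ∧ mu (G.inv x) = m := by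
            apply sel_congr
            intro x
            by_cases hx : G.inv x ∈ S
            · have h3 : mu (G.inv x) ≠ m := by
                rw [(hS _ hx).1]
                exact fun h => hml h.symm
              have h4 : k ≠ m := fun h => hm h.symm
              simp [hx, h3, h4]
            · simp [hx]
          rw [e1, e2]
          exact h1
    · intro x hx
      have h1 := hok.2 x hx
      by_cases h2 : x ∈ S
      · have h3 := hSi x h2
        simp only [h2, h3, if_true, if_false]
        exact (hk _).symm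
      · by_cases h3 : G.inv x ∈ S
        · simp only [h2, h3, if_true, if_false]
          exact hk _
        · simp only [h2, h3, if_false]
          exact h1
  · subst hkl
    simpa using hok

theorem fresh (mu : D → ℕ) : ∃ k, ∀ x, mu x ≠ k := by
  refine ⟨univ.sup mu + 1, fun x h => ?_⟩
  have := Finset.le_sup (f := mu) (mem_univ x)
  omega

theorem fin4b : ∀ i : Fin 4, i + 1 ≠ i - 1 := by decide

theorem card_cut_pair (W : Finset V) (x : D) :
    (G.cut univ W ∩ {x, G.inv x}).card ≤ 1 := by
  rw [card_le_one]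
  intro a ha b hb
  rw [mem_inter, mem_cut, mem_insert, mem_singleton] at ha hb
  rcases ha.2 with h1 | h1 <;> rcases hb.2 with h2 | h2
  · rw [h1, h2]
  · exfalso
    subst h1
    rw [h2, src_inv] at hb
    exact ha.1.2.2 hb.1.2.1
  · exfalso
    subst h2
    rw [h1, src_inv] at ha
    exact hb.1.2.2 ha.1.2.1
  · rw [h1, h2]

/-- the third darts -/
theorem exists_quad (hG : G.Cub) (h3 : G.C3) (hV : 5 ≤ Fintype.card V) (c : Fin 4 → D)
    (nxt : ∀ i, G.tgt (c i) = G.src (c (i + 1)))
    (inj : ∀ i j, G.src (c i) = G.src (c j) → i = j) : ∃ d, Quad G c d := by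
  have hne : ∀ i, c i ≠ G.inv (c (i - 1)) := by
    intro i hi
    have h1 : G.tgt (c i) = G.tgt (G.inv (c (i - 1))) := by rw [← hi]
    rw [nxt, tgt_inv] at h1
    exact fin4b i (inj _ _ h1)
  have hsrc : ∀ i, G.src (G.inv (c (i - 1))) = G.src (c i) := by
    intro i
    rw [src_inv, nxt, sub_add_cancel]
  have hex : ∀ i, ∃ d, ∀ x, G.src x = G.src (c i) ∧ x ≠ c i ∧ x ≠ G.inv (c (i - 1)) ↔ x = d := by
    intro i
    have h1 : ({c i, G.inv (c (i - 1))} : Finset D) ⊆ sel univ fun x => G.src x = G.src (c i) := by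
      intro x hx
      rw [mem_insert, mem_singleton] at hx
      rw [mem_sel]
      rcases hx with rfl | rfl
      · exact ⟨mem_univ _, rfl⟩
      · exact ⟨mem_univ _, hsrc i⟩
    have h2 := card_sdiff_add_card_eq_card h1
    rw [hG, card_pair (hne i)] at h2
    have h4 : ((sel univ fun x => G.src x = G.src (c i)) \ {c i, G.inv (c (i - 1))}).card = 1 := by
      omega
    obtain ⟨d, hd⟩ := card_eq_one.1 h4
    refine ⟨d, fun x => ?_⟩
    have h5 : x ∈ (sel univ fun x => G.src x = G.src (c i)) \ {c i, G.inv (c (i - 1))} ↔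
        x = d := by
      rw [hd, mem_singleton]
    rw [← h5, mem_sdiff, mem_sel, mem_insert, mem_singleton]
    simp only [mem_univ, true_and, not_or]
  choose d hd using hex
  have star : ∀ i x, G.src x = G.src (c i) ↔ (x = c i ∨ x = G.inv (c (i - 1)) ∨ x = d i) := by
    intro i x
    constructor
    · intro hx
      by_cases h1 : x = c i
      · exact Or.inl h1
      · by_cases h2 : x = G.inv (c (i - 1))
        · exact Or.inr (Or.inl h2)
        · exact Or.inr (Or.inr ((hd i x).1 ⟨hx, h1, h2⟩))
    · rintro (rfl | rfl | hx)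
      · rfl
      · exact hsrc i
      · exact ((hd i x).2 hx).1
  have ne1 : ∀ i, d i ≠ c i := fun i => ((hd i (d i)).2 rfl).2.1
  have ne2 : ∀ i, d i ≠ G.inv (c (i - 1)) := fun i => ((hd i (d i)).2 rfl).2.2
  have srcd : ∀ i, G.src (d i) = G.src (c i) := fun i => ((hd i (d i)).2 rfl).1
  refine ⟨d, nxt, inj, star, ne1, ne2, ?_⟩
  intro i j hij
  have h5 : G.inv (d i) = d j := by
    have h6 : G.src (G.inv (d i)) = G.src (c j) := hij
    rcases (star j _).1 h6 with h7 | h7 | h7
    · exfalso
      have h8 : d i = G.inv (c j) := inv_eq_iff.1 h7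
      have h9 : G.src (d i) = G.src (c (j + 1)) := by
        rw [h8, src_inv, nxt]
      rw [srcd] at h9
      have h10 := inj _ _ h9
      subst h10
      apply ne2 (j + 1)
      rw [h8, add_sub_cancel_right]
    · exfalso
      have h8 : d i = c (j - 1) := inv_inj h7
      have h9 : G.src (d i) = G.src (c (j - 1)) := by rw [h8]
      rw [srcd] at h9
      have h10 := inj _ _ h9
      subst h10
      exact ne1 _ h8
    · exact h7
  have hij2 : i ≠ j := by
    rintro rfl
    exact G.inv_ne _ h5
  set X : Finset V := univ.image fun i => G.src (c i) with hX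
  have hXmem : ∀ v, v ∈ X ↔ ∃ i, G.src (c i) = v := by
    intro v
    simp [hX]
  have hXcard : X.card ≤ 4 := by
    refine card_image_le.trans ?_
    simp
  have hXu : X ≠ univ := by
    intro h
    rw [h, card_univ] at hXcard
    omega
  have h6 := h3 X ⟨_, (hXmem _).2 ⟨0, rfl⟩⟩ hXu
  have h7 : G.cut univ X ⊆ (univ \ {i, j}).image d := by
    intro x hx
    rw [mem_cut] at hx
    obtain ⟨m, hm⟩ := (hXmem _).1 hx.2.1
    have hxm : x = d m := by
      rcases (star m x).1 hm.symm with h8 | h8 | h8
      · exfalso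
        subst h8
        apply hx.2.2
        rw [nxt, hXmem]
        exact ⟨_, rfl⟩
      · exfalso
        subst h8
        apply hx.2.2
        rw [tgt_inv, hXmem]
        exact ⟨_, rfl⟩
      · exact h8
    rw [mem_image]
    refine ⟨m, ?_, hxm.symm⟩
    rw [mem_sdiff, mem_insert, mem_singleton]
    refine ⟨mem_univ _, ?_⟩
    rintro (rfl | rfl)
    · apply hx.2.2
      rw [hxm, hij, hXmem]
      exact ⟨_, rfl⟩
    · apply hx.2.2
      rw [hxm, ← h5, tgt_inv, srcd, hXmem]
      exact ⟨_, rfl⟩
  have h8 := (card_le_card h7).trans card_image_le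
  have h9 : ((univ : Finset (Fin 4)) \ {i, j}).card = 2 := by
    rw [card_sdiff_of_subset (subset_univ _), card_univ, Fintype.card_fin, card_pair hij2]
  omega

/-- without the edges `c 1`, `c 3` there are no cut edges -/
theorem bl_A0 {c d : Fin 4 → D} (hq : Quad G c d) (h3 : G.C3) (h4 : G.C4) :
    G.BL ((univ \ {c 1, G.inv (c 1)}) \ {c 3, G.inv (c 3)}) := by
  intro W hW
  have h1 : G.cut univ W ⊆ G.cut ((univ \ {c 1, G.inv (c 1)}) \ {c 3, G.inv (c 3)}) W ∪
      ((G.cut univ W ∩ {c 1, G.inv (c 1)}) ∪ (G.cut univ W ∩ {c 3, G.inv (c 3)})) := by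
    intro x hx
    by_cases a1 : x ∈ ({c 1, G.inv (c 1)} : Finset D)
    · exact mem_union_right _ (mem_union_left _ (mem_inter.2 ⟨hx, a1⟩))
    · by_cases a2 : x ∈ ({c 3, G.inv (c 3)} : Finset D)
      · exact mem_union_right _ (mem_union_right _ (mem_inter.2 ⟨hx, a2⟩))
      · refine mem_union_left _ ?_
        rw [mem_cut] at hx ⊢
        exact ⟨mem_sdiff.2 ⟨mem_sdiff.2 ⟨mem_univ _, a1⟩, a2⟩, hx.2⟩
  have h2 := (card_le_card h1).trans (card_union_le _ _)
  have h2' := card_union_le (G.cut univ W ∩ {c 1, G.inv (c 1)}) (G.cut univ W ∩ {c 3, G.inv (c 3)})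
  have p1 := card_cut_pair (G := G) W (c 1)
  have p3 := card_cut_pair (G := G) W (c 3)
  obtain ⟨y, hy⟩ := card_pos.1 (by omega : 0 <
    (G.cut ((univ \ {c 1, G.inv (c 1)}) \ {c 3, G.inv (c 3)}) W).card)
  rw [mem_cut] at hy
  have h5 : 3 ≤ (G.cut univ W).card := by
    refine h3 W ⟨_, hy.2.1⟩ ?_
    rintro rfl
    exact hy.2.2 (mem_univ _)
  have q1 : (G.cut univ W ∩ {c 1, G.inv (c 1)}).Nonempty := card_pos.1 (by omega)
  have q3 : (G.cut univ W ∩ {c 3, G.inv (c 3)}).Nonempty := card_pos.1 (by omega)
  have r1 : G.src (c 1) ∈ W ↔ G.src (c 2) ∉ W := by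
    obtain ⟨z, hz⟩ := q1
    rw [mem_inter, mem_cut, mem_insert, mem_singleton] at hz
    have hn : G.tgt (c 1) = G.src (c 2) := hq.nxt 1
    rcases hz.2 with rfl | rfl
    · rw [hn] at hz
      tauto
    · rw [tgt_inv, src_inv, hn] at hz
      tauto
  have r3 : G.src (c 3) ∈ W ↔ G.src (c 0) ∉ W := by
    obtain ⟨z, hz⟩ := q3
    rw [mem_inter, mem_cut, mem_insert, mem_singleton] at hz
    have hn : G.tgt (c 3) = G.src (c 0) := hq.nxt 3
    rcases hz.2 with rfl | rfl
    · rw [hn] at hz
      tauto
    · rw [tgt_inv, src_inv, hn] at hz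
      tauto
  have d13 : G.src (c 1) ≠ G.src (c 3) := fun h => absurd (hq.inj _ _ h) (by decide)
  have d10 : G.src (c 1) ≠ G.src (c 0) := fun h => absurd (hq.inj _ _ h) (by decide)
  have d23 : G.src (c 2) ≠ G.src (c 3) := fun h => absurd (hq.inj _ _ h) (by decide)
  have d20 : G.src (c 2) ≠ G.src (c 0) := fun h => absurd (hq.inj _ _ h) (by decide)
  have key : ∀ U : Finset V, U.card ≤ 1 → (G.src (c 1) ∈ U ↔ G.src (c 2) ∉ U) →
      (G.src (c 3) ∈ U ↔ G.src (c 0) ∉ U) → False := by
    intro U hU u1 u3
    rw [card_le_one] at hU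
    by_cases a1 : G.src (c 1) ∈ U
    · by_cases a3 : G.src (c 3) ∈ U
      · exact d13 (hU _ a1 _ a3)
      · have a0 : G.src (c 0) ∈ U := by tauto
        exact d10 (hU _ a1 _ a0)
    · have a2 : G.src (c 2) ∈ U := by tauto
      by_cases a3 : G.src (c 3) ∈ U
      · exact d23 (hU _ a2 _ a3)
      · have a0 : G.src (c 0) ∈ U := by tauto
        exact d20 (hU _ a2 _ a0)
  by_cases w1 : W.card ≤ 1
  · exact key W w1 r1 r3
  · by_cases w2 : Wᶜ.card ≤ 1
    · refine key Wᶜ w2 ?_ ?_
      · simp only [mem_compl]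
        tauto
      · simp only [mem_compl]
        tauto
    · have := h4 W (by omega) (by omega)
      omega

/-- following a label through the outside -/
theorem split (hs : T_SPLIT) (hG : G.Cub) {c d : Fin 4 → D} (hq : Quad G c d) (mu : D → ℕ)
    (hok : Ok G c mu) (i : Fin 4) : ∃ (S : Finset D) (j : Fin 4),
    (∀ x ∈ S, mu x = mu (d i) ∧
      ((∀ i, G.src x ≠ G.src (c i)) ∨ (∀ i, G.tgt x ≠ G.src (c i)))) ∧
    (∀ v, (∀ i, v ≠ G.src (c i)) → (sel univ fun x => G.src x = v ∧ x ∈ S).card =
      (sel univ fun x => G.src x = v ∧ G.inv x ∈ S).card) ∧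
    (∀ m, d m ∈ S ↔ m = i) ∧ (∀ m, G.inv (d m) ∈ S ↔ m = j) := by
  set X : Finset V := univ.image fun i => G.src (c i) with hX
  have hXmem : ∀ v, v ∈ X ↔ ∃ i, G.src (c i) = v := by
    intro v
    simp [hX]
  have hYmem : ∀ v, v ∈ Xᶜ ↔ ∀ i, v ≠ G.src (c i) := by
    intro v
    rw [mem_compl, hXmem]
    push Not
    exact ⟨fun h i h1 => h i h1.symm, fun h i h1 => h i h1.symm⟩
  obtain ⟨S, h0, hS, hS1, hSb, x1, hx1S, hx1a, hx1b, hx1u⟩ := hs V D G hG Xᶜ mu
    (fun v hv => hok.1 v ((hYmem v).1 hv)) (fun x hx => hok.2 x (by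
      rcases hx with h | h
      · exact Or.inl ((hYmem _).1 h)
      · exact Or.inr ((hYmem _).1 h))) (d i)
    (by
      rw [hq.srcd, mem_compl, not_not, hXmem]
      exact ⟨_, rfl⟩)
    ((hYmem _).2 fun j => hq.out i j)
  obtain ⟨j, hj⟩ : ∃ j, G.src (c j) = G.tgt x1 := by
    rw [mem_compl, not_not, hXmem] at hx1b
    exact hx1b
  have hx1 : x1 = G.inv (d j) := by
    have h1 : G.src (G.inv x1) = G.src (c j) := by rw [src_inv, hj]
    have h2 := (hYmem _).1 hx1a
    rcases (hq.star j _).1 h1 with h3 | h3 | h3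
    · exfalso
      have h4 : x1 = G.inv (c j) := inv_eq_iff.1 h3
      apply h2 (j + 1)
      rw [h4, hq.srcic]
    · exfalso
      have h4 : x1 = c (j - 1) := inv_inj h3
      apply h2 (j - 1)
      rw [h4]
    · exact inv_eq_iff.1 h3
  refine ⟨S, j, ?_, ?_, ?_, ?_⟩
  · intro x hx
    obtain ⟨h1, h2⟩ := hS x hx
    refine ⟨h1, ?_⟩
    rcases h2 with h | h
    · exact Or.inl ((hYmem _).1 h)
    · exact Or.inr ((hYmem _).1 h)
  · intro v hv
    exact hSb v ((hYmem v).2 hv)
  · intro m
    constructor
    · intro hm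
      have h1 := hS1 _ hm (by
        rw [hq.srcd, mem_compl, not_not, hXmem]
        exact ⟨_, rfl⟩)
      have h2 : G.src (d m) = G.src (d i) := by rw [h1]
      rw [hq.srcd, hq.srcd] at h2
      exact hq.inj _ _ h2
    · rintro rfl
      exact h0
  · intro m
    constructor
    · intro hm
      have h1 := hx1u _ hm (by
        rw [src_inv]
        exact (hYmem _).2 fun j => hq.out m j) (by
        rw [tgt_inv, hq.srcd, mem_compl, not_not, hXmem]
        exact ⟨_, rfl⟩)
      rw [hx1] at h1
      have h2 := inv_inj h1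
      have h3 : G.src (d m) = G.src (d j) := by rw [h2]
      rw [hq.srcd, hq.srcd] at h3
      exact hq.inj _ _ h3
    · rintro rfl
      rw [← hx1]
      exact hx1S

theorem t_r4 (hs : T_SPLIT) : T_R4 := by
  intro V D _ _ G hG h3 h4 hIH hV c1 c2 c3 c4 t1 t2 t3 t4 n12 n13 n14 n23 n24 n34
  obtain ⟨c, hnxt, hinj⟩ : ∃ c : Fin 4 → D, (∀ i, G.tgt (c i) = G.src (c (i + 1))) ∧
      ∀ i j, G.src (c i) = G.src (c j) → i = j := by
    refine ⟨![c1, c2, c3, c4], ?_, ?_⟩
    · intro i
      fin_cases i
      · exact t1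
      · exact t2
      · exact t3
      · exact t4
    · intro i j h
      fin_cases i <;> fin_cases j <;> first
        | rfl
        | exact absurd h n12
        | exact absurd h n13
        | exact absurd h n14
        | exact absurd h n23
        | exact absurd h n24
        | exact absurd h n34
        | exact absurd h.symm n12
        | exact absurd h.symm n13
        | exact absurd h.symm n14
        | exact absurd h.symm n23
        | exact absurd h.symm n24
        | exact absurd h.symm n34
  obtain ⟨d, hq⟩ := exists_quad hG h3 hV c hnxt hinj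
  set A0 : Finset D := (univ \ {c 1, G.inv (c 1)}) \ {c 3, G.inv (c 3)} with hA0
  have hcl : G.Cl A0 := cl_sdiff_pair (cl_sdiff_pair cl_univ _) _
  have memA : ∀ x, x ∈ A0 ↔ x ≠ c 1 ∧ x ≠ G.inv (c 1) ∧ x ≠ c 3 ∧ x ≠ G.inv (c 3) := by
    intro x
    rw [hA0, mem_sdiff, mem_sdiff, mem_insert, mem_singleton, mem_insert, mem_singleton]
    simp only [mem_univ, true_and]
    tauto
  have hAu : A0 ≠ univ := by
    intro h
    have := (memA (c 1)).1 (h ▸ mem_univ _)
    exact this.1 rfl
  obtain ⟨mu, hmu, hbal⟩ := hIH A0 hcl hAu (bl_A0 hq h3 h4)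
  have hdA : ∀ i, d i ∈ A0 := fun i => (memA _).2 ⟨hq.d_ne_c _ _, hq.d_ne_ic _ _, hq.d_ne_c _ _, hq.d_ne_ic _ _⟩
  have hidA : ∀ i, G.inv (d i) ∈ A0 := fun i => hcl _ (hdA i)
  have hc0A : c 0 ∈ A0 := (memA _).2 ⟨fun h => absurd (hq.c_inj h) (by decide),
    (hq.ic_ne_c _ _).symm, fun h => absurd (hq.c_inj h) (by decide), (hq.ic_ne_c _ _).symm⟩
  have hc2A : c 2 ∈ A0 := (memA _).2 ⟨fun h => absurd (hq.c_inj h) (by decide),
    (hq.ic_ne_c _ _).symm, fun h => absurd (hq.c_inj h) (by decide), (hq.ic_ne_c _ _).symm⟩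
  have hic0A := hcl _ hc0A
  have hic2A := hcl _ hc2A
  -- the stars in `A0`
  have st0 : ∀ x ∈ A0, G.src x = G.src (c 0) → x = c 0 ∨ x = d 0 := by
    intro x hx h
    rcases (hq.star 0 x).1 h with h1 | h1 | h1
    · exact Or.inl h1
    · exact absurd h1 ((memA x).1 hx).2.2.2
    · exact Or.inr h1
  have st1 : ∀ x ∈ A0, G.src x = G.src (c 1) → x = G.inv (c 0) ∨ x = d 1 := by
    intro x hx h
    rcases (hq.star 1 x).1 h with h1 | h1 | h1
    · exact absurd h1 ((memA x).1 hx).1
    · exact Or.inl h1
    · exact Or.inr h1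
  have st2 : ∀ x ∈ A0, G.src x = G.src (c 2) → x = c 2 ∨ x = d 2 := by
    intro x hx h
    rcases (hq.star 2 x).1 h with h1 | h1 | h1
    · exact Or.inl h1
    · exact absurd h1 ((memA x).1 hx).2.1
    · exact Or.inr h1
  have st3 : ∀ x ∈ A0, G.src x = G.src (c 3) → x = G.inv (c 2) ∨ x = d 3 := by
    intro x hx h
    rcases (hq.star 3 x).1 h with h1 | h1 | h1
    · exact absurd h1 ((memA x).1 hx).2.2.1
    · exact Or.inl h1
    · exact Or.inr h1
  -- transport of labels through the vertices of degree two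
  have tr : ∀ (v : V) (x y : D), x ∈ A0 → y ∈ A0 → G.src x = v → G.src y = v →
      (∀ z ∈ A0, G.src z = v → z = x ∨ z = y) → mu y = mu (G.inv x) := by
    intro v x y hx hy hxv hyv hall
    obtain ⟨z, hz, hz1, hz2⟩ := bal_next hcl (d := G.inv x)
      (by rw [tgt_inv]; exact hbal (G.src x)) (hcl _ hx)
    rw [tgt_inv, hxv] at hz1
    rcases hall z hz hz1 with h | h
    · exfalso
      subst h
      exact hmu z hz hz2
    · rw [← h, hz2]
  have a0 := tr _ _ _ hc0A (hdA 0) rfl (hq.srcd 0) st0
  have a0' := tr _ _ _ (hdA 0) hc0A (hq.srcd 0) rfl (fun z hz h => (st0 z hz h).symm)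
  have a1 := tr _ _ _ hic0A (hdA 1) (hq.srcic 0) (hq.srcd 1) st1
  have a1' := tr _ _ _ (hdA 1) hic0A (hq.srcd 1) (hq.srcic 0) (fun z hz h => (st1 z hz h).symm)
  have a2 := tr _ _ _ hc2A (hdA 2) rfl (hq.srcd 2) st2
  have a2' := tr _ _ _ (hdA 2) hc2A (hq.srcd 2) rfl (fun z hz h => (st2 z hz h).symm)
  have a3 := tr _ _ _ hic2A (hdA 3) (hq.srcic 2) (hq.srcd 3) st3
  have a3' := tr _ _ _ (hdA 3) hic2A (hq.srcd 3) (hq.srcic 2) (fun z hz h => (st3 z hz h).symm)
  rw [G.inv_inv] at a1 a3
  have hok : Ok G c mu := by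
    constructor
    · intro v hv k
      have hA : ∀ x, G.src x = v → x ∈ A0 := by
        intro x hx
        rw [memA]
        refine ⟨?_, ?_, ?_, ?_⟩
        · rintro rfl
          exact hv _ hx.symm
        · rintro rfl
          rw [hq.srcic] at hx
          exact hv _ hx.symm
        · rintro rfl
          exact hv _ hx.symm
        · rintro rfl
          rw [hq.srcic] at hx
          exact hv _ hx.symm
      have h1 := hbal v k
      have e1 : (sel univ fun x => G.src x = v ∧ mu x = k) = sel A0 fun x => G.src x = v ∧ mu x = k := by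
        apply sel_congr
        intro x
        exact ⟨fun h => ⟨hA x h.2.1, h.2⟩, fun h => ⟨mem_univ _, h.2⟩⟩
      have e2 : (sel univ fun x => G.src x = v ∧ mu (G.inv x) = k) =
          sel A0 fun x => G.src x = v ∧ mu (G.inv x) = k := by
        apply sel_congr
        intro x
        exact ⟨fun h => ⟨hA x h.2.1, h.2⟩, fun h => ⟨mem_univ _, h.2⟩⟩
      rw [e1, e2]
      exact h1
    · intro x hx
      apply hmu
      rw [memA]
      refine ⟨?_, ?_, ?_, ?_⟩
      · rintro rfl
        rcases hx with h | h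
        · exact h 1 rfl
        · exact h _ (hq.nxt 1)
      · rintro rfl
        rcases hx with h | h
        · exact h _ (hq.srcic 1)
        · exact h 1 (tgt_inv _)
      · rintro rfl
        rcases hx with h | h
        · exact h 3 rfl
        · exact h _ (hq.nxt 3)
      · rintro rfl
        rcases hx with h | h
        · exact h _ (hq.srcic 3)
        · exact h 3 (tgt_inv _)
  have hab : mu (d 0) ≠ mu (G.inv (d 0)) := hmu _ (hdA 0)
  have hef : mu (d 2) ≠ mu (G.inv (d 2)) := hmu _ (hdA 2)
  have m1 : mu (d 1) = mu (G.inv (d 0)) := by rw [a1, a0']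
  have n1 : mu (G.inv (d 1)) = mu (d 0) := by rw [← a1', a0]
  have m3 : mu (d 3) = mu (G.inv (d 2)) := by rw [a3, a2']
  have n3 : mu (G.inv (d 3)) = mu (d 2) := by rw [← a3', a2]
  by_cases hno : ¬ (mu (d 2) = mu (G.inv (d 0)) ∧ mu (G.inv (d 2)) = mu (d 0))
  · exact patt hq mu hok _ _ _ _ hab hef rfl rfl m1 n1 rfl rfl m3 n3 hno
  · rw [not_not] at hno
    obtain ⟨e1, e2⟩ := hno
    rw [e2] at m3
    rw [e1] at n3
    obtain ⟨S, j, hS, hSb, hSd, hSi⟩ := split hs hG hq mu hok 0
    obtain ⟨S', j', hS', hSb', hSd', hSi'⟩ := split hs hG hq mu hok 1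
    have hj : mu (G.inv (d j)) = mu (d 0) := (hS _ ((hSi j).2 rfl)).1
    have hj' : mu (G.inv (d j')) = mu (d 1) := (hS' _ ((hSi' j').2 rfl)).1
    rw [m1] at hj'
    have c1 : j = 1 ∨ j = 2 := by
      fin_cases j
      · exact absurd hj.symm hab
      · exact Or.inl rfl
      · exact Or.inr rfl
      · exfalso
        have hj2 : mu (G.inv (d 3)) = mu (d 0) := hj
        rw [n3] at hj2
        exact hab hj2.symm
    have c2 : j' = 0 ∨ j' = 3 := by
      fin_cases j'
      · exact Or.inl rfl
      · exfalso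
        have hj2 : mu (G.inv (d 1)) = mu (G.inv (d 0)) := hj'
        rw [n1] at hj2
        exact hab hj2
      · exfalso
        have hj2 : mu (G.inv (d 2)) = mu (G.inv (d 0)) := hj'
        rw [e2] at hj2
        exact hab hj2
      · exact Or.inr rfl
    obtain ⟨k, hk⟩ := fresh mu
    have ev : ∀ (T : Finset D) (y : D), y ∉ T → (if y ∈ T then k else mu y) = mu y := by
      intro T y hy
      exact if_neg hy
    have ev' : ∀ (T : Finset D) (y : D), y ∈ T → (if y ∈ T then k else mu y) = k := by
      intro T y hy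
      exact if_pos hy
    have f01 : (0 : Fin 4) ≠ 1 := by decide
    have f02 : (0 : Fin 4) ≠ 2 := by decide
    have f03 : (0 : Fin 4) ≠ 3 := by decide
    have f12 : (1 : Fin 4) ≠ 2 := by decide
    have f13 : (1 : Fin 4) ≠ 3 := by decide
    have f23 : (2 : Fin 4) ≠ 3 := by decide
    rcases c1 with rfl | rfl
    · have hok' := relab mu hok S (mu (d 0)) k hS hSb hk
      refine patt hq _ hok' k (mu (G.inv (d 0))) (mu (G.inv (d 0))) (mu (d 0)) (hk _).symm
        hab.symm ?_ ?_ ?_ ?_ ?_ ?_ ?_ ?_ ?_
      · exact ev' _ _ ((hSd 0).2 rfl)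
      · exact ev _ _ (fun h => f01 ((hSi 0).1 h))
      · exact (ev _ _ (fun h => f01.symm ((hSd 1).1 h))).trans m1
      · exact ev' _ _ ((hSi 1).2 rfl)
      · exact (ev _ _ (fun h => f02.symm ((hSd 2).1 h))).trans e1
      · exact (ev _ _ (fun h => f12.symm ((hSi 2).1 h))).trans e2
      · exact (ev _ _ (fun h => f03.symm ((hSd 3).1 h))).trans m3
      · exact (ev _ _ (fun h => f13.symm ((hSi 3).1 h))).trans n3
      · rintro ⟨-, h⟩
        exact hk _ h
    · rcases c2 with rfl | rfl
      · have hok' := relab mu hok S' (mu (d 1)) k hS' hSb' hk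
        refine patt hq _ hok' (mu (d 0)) k (mu (G.inv (d 0))) (mu (d 0)) (hk _)
          hab.symm ?_ ?_ ?_ ?_ ?_ ?_ ?_ ?_ ?_
        · exact ev _ _ (fun h => f01 ((hSd' 0).1 h))
        · exact ev' _ _ ((hSi' 0).2 rfl)
        · exact ev' _ _ ((hSd' 1).2 rfl)
        · exact (ev _ _ (fun h => f01.symm ((hSi' 1).1 h))).trans n1
        · exact (ev _ _ (fun h => f12.symm ((hSd' 2).1 h))).trans e1
        · exact (ev _ _ (fun h => f02.symm ((hSi' 2).1 h))).trans e2
        · exact (ev _ _ (fun h => f13.symm ((hSd' 3).1 h))).trans m3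
        · exact (ev _ _ (fun h => f03.symm ((hSi' 3).1 h))).trans n3
        · rintro ⟨h, -⟩
          exact hk _ h
      · have hok1 := relab mu hok S (mu (d 0)) k hS hSb hk
        obtain ⟨k', hk'⟩ := fresh (fun x => if x ∈ S then k else mu x)
        have hdis : ∀ x ∈ S', x ∉ S := by
          intro x hx hx2
          have h1 := (hS' x hx).1
          have h2 := (hS x hx2).1
          rw [h1, m1] at h2
          exact hab h2.symm
        have hS'' : ∀ x ∈ S', (if x ∈ S then k else mu x) = mu (d 1) ∧
            ((∀ i, G.src x ≠ G.src (c i)) ∨ (∀ i, G.tgt x ≠ G.src (c i))) := by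
          intro x hx
          rw [if_neg (hdis x hx)]
          exact hS' x hx
        have hok2 := relab _ hok1 S' (mu (d 1)) k' hS'' hSb' hk'
        have ew : ∀ y : D, y ∉ S' → (if y ∈ S' then k' else (if y ∈ S then k else mu y)) =
            (if y ∈ S then k else mu y) := by
          intro y hy
          exact if_neg hy
        have ew' : ∀ y : D, y ∈ S' → (if y ∈ S' then k' else (if y ∈ S then k else mu y)) = k' := by
          intro y hy
          exact if_pos hy
        have k1 : ∀ y, y ∉ S → mu y ≠ k' := by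
          intro y hy h
          apply hk' y
          change (if y ∈ S then k else mu y) = k'
          rw [if_neg hy]
          exact h
        refine patt5 hq _ hok2 k (mu (d 0)) k' (mu (G.inv (d 0))) (hk _).symm ?_ hab ?_
          ?_ ?_ ?_ ?_ ?_ ?_ ?_ ?_
        · have h1 := hk' (d 0)
          change (if d 0 ∈ S then k else mu (d 0)) ≠ k' at h1
          rw [if_pos ((hSd 0).2 rfl)] at h1
          exact h1
        · exact fun h => k1 _ (fun h1 => f02 ((hSi 0).1 h1)) h.symm
        · exact (ew _ (fun h => f01 ((hSd' 0).1 h))).trans (ev' _ _ ((hSd 0).2 rfl))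
        · exact (ew _ (fun h => f03 ((hSi' 0).1 h))).trans (ev _ _ (fun h => f02 ((hSi 0).1 h)))
        · exact ew' _ ((hSd' 1).2 rfl)
        · exact ((ew _ (fun h => f13 ((hSi' 1).1 h))).trans
            (ev _ _ (fun h => f12 ((hSi 1).1 h)))).trans n1
        · exact ((ew _ (fun h => f12.symm ((hSd' 2).1 h))).trans
            (ev _ _ (fun h => f02.symm ((hSd 2).1 h)))).trans e1
        · exact (ew _ (fun h => f23 ((hSi' 2).1 h))).trans (ev' _ _ ((hSi 2).2 rfl))
        · exact ((ew _ (fun h => f13.symm ((hSd' 3).1 h))).trans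
            (ev _ _ (fun h => f03.symm ((hSd 3).1 h)))).trans m3
        · exact ew' _ ((hSi' 3).2 rfl)

end Pool.Agent.H20.OC.R4
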