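import Pool.Agent.H69.OC.Targets

/-!
# Module TRU: truncation
-/

set_option autoImplicit false
set_option linter.unusedSectionVars false
open scoped Classical
open Finset

namespace Pool.Agent.H20.OC.TRU

open Pool.Agent.H69.OC Pool.Agent.H69.OC.DG Pool.Agent.H7.TF

section perm

variable {E T : Type}

theorem sc_inv {α : Equiv.Perm E} {f : E → T} (hf : ∀ x, f (α x) = f x) {x y : E}
    (h : α.SameCycle x y) : f x = f y := by
  obtain ⟨n, rfl⟩ := h
  have h1 : ∀ n : ℕ, ∀ x, f ((α ^ n) x) = f x := by
    intro n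
    induction n with
    | zero => intro x; rfl
    | succ n ih =>
      intro x
      rw [pow_succ, Equiv.Perm.mul_apply, ih, hf]
  cases n with
  | ofNat n =>
    rw [Int.ofNat_eq_natCast, zpow_natCast]
    exact (h1 n x).symm
  | negSucc n =>
    have h2 := h1 (n + 1) ((α ^ Int.negSucc n) x)
    rw [← h2, zpow_negSucc, ← Equiv.Perm.mul_apply, mul_inv_cancel, Equiv.Perm.one_apply]

theorem nc_ge [Finite E] (α : Equiv.Perm E) (f : E → T) (hf : ∀ x, f (α x) = f x)
    (hs : Function.Surjective f) : Nat.card T ≤ nc α := by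
  unfold nc
  refine Nat.card_le_card_of_surjective
    (Quotient.lift f (fun x y h => sc_inv hf h)) ?_
  intro t
  obtain ⟨x, rfl⟩ := hs t
  exact ⟨Quotient.mk _ x, rfl⟩

theorem setoid_le {α : Equiv.Perm E} {r : Setoid E} (h : ∀ x, r (α x) x) :
    Equiv.Perm.SameCycle.setoid α ≤ r := by
  intro x y hxy
  have h1 : (Quotient.mk r x) = Quotient.mk r y :=
    sc_inv (f := Quotient.mk r) (fun z => Quotient.sound (h z)) hxy
  exact Quotient.exact h1

end perm

variable {V D : Type} [Fintype V] [Fintype D]

/-- the truncated graph -/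
def tr (G : DG V D) (s : Equiv.Perm D) : DG D (D ⊕ (D ⊕ D)) where
  src := fun x => match x with
    | Sum.inl d => d
    | Sum.inr (Sum.inl d) => d
    | Sum.inr (Sum.inr d) => d
  inv := fun x => match x with
    | Sum.inl d => Sum.inl (G.inv d)
    | Sum.inr (Sum.inl d) => Sum.inr (Sum.inr (s d))
    | Sum.inr (Sum.inr d) => Sum.inr (Sum.inl (s.symm d))
  inv_inv := by
    rintro (d | d | d)
    · simp only [G.inv_inv]
    · simp only [Equiv.symm_apply_apply]
    · simp only [Equiv.apply_symm_apply]
  inv_ne := by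
    rintro (d | d | d)
    · simp only [ne_eq, Sum.inl.injEq]
      exact G.inv_ne d
    · simp
    · simp

/-- the rotation of the truncated graph -/
def rot (D : Type) : Equiv.Perm (D ⊕ (D ⊕ D)) where
  toFun := fun x => match x with
    | Sum.inl d => Sum.inr (Sum.inl d)
    | Sum.inr (Sum.inl d) => Sum.inr (Sum.inr d)
    | Sum.inr (Sum.inr d) => Sum.inl d
  invFun := fun x => match x with
    | Sum.inl d => Sum.inr (Sum.inr d)
    | Sum.inr (Sum.inl d) => Sum.inl d
    | Sum.inr (Sum.inr d) => Sum.inr (Sum.inl d)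
  left_inv := by
    rintro (d | d | d) <;> rfl
  right_inv := by
    rintro (d | d | d) <;> rfl

theorem tr_cub (G : DG V D) (s : Equiv.Perm D) : (tr G s).Cub := by
  intro v
  have : (sel univ fun x => (tr G s).src x = v) =
      {Sum.inl v, Sum.inr (Sum.inl v), Sum.inr (Sum.inr v)} := by
    ext x
    rw [mem_sel]
    rcases x with d | d | d <;> simp [tr]
  rw [this, card_insert_of_notMem (by simp), card_insert_of_notMem (by simp), card_singleton]

theorem tr_rot (G : DG V D) (s : Equiv.Perm D) : (tr G s).Rot univ (rot D) := by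
  have h0 : ∀ d : D, (rot D).SameCycle (Sum.inl d) (Sum.inr (Sum.inl d)) := fun d => ⟨1, rfl⟩
  have h1 : ∀ d : D, (rot D).SameCycle (Sum.inl d) (Sum.inr (Sum.inr d)) := fun d => ⟨2, rfl⟩
  have h2 : ∀ x : D ⊕ (D ⊕ D), (rot D).SameCycle (Sum.inl ((tr G s).src x)) x := by
    rintro (d | d | d)
    · exact Equiv.Perm.SameCycle.refl _ _
    · exact h0 d
    · exact h1 d
  constructor
  · rintro (d | d | d) _ <;> exact ⟨mem_univ _, rfl⟩
  · intro x _ y _ hxy
    have h3 := h2 x
    rw [hxy] at h3
    exact h3.symm.trans (h2 y)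

theorem card_out_eq (s : Equiv.Perm D) (W : Finset D) :
    (sel univ fun d => d ∈ W ∧ s d ∉ W).card = (sel univ fun d => d ∈ W ∧ s.symm d ∉ W).card := by
  have a1 := card_sel_split (univ : Finset D) (fun d => d ∈ W) (fun d => s d ∈ W)
  have a2 := card_sel_split (univ : Finset D) (fun d => d ∈ W) (fun d => s.symm d ∈ W)
  have a3 : (sel univ fun d => d ∈ W ∧ s d ∈ W).card =
      (sel univ fun d => d ∈ W ∧ s.symm d ∈ W).card := by
    refine card_bij (fun d _ => s d) ?_ ?_ ?_
    · intro d hd
      rw [mem_sel] at hd ⊢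
      refine ⟨mem_univ _, hd.2.2, ?_⟩
      rw [Equiv.symm_apply_apply]
      exact hd.2.1
    · intro d _ d' _ h
      exact s.injective h
    · intro d hd
      rw [mem_sel] at hd
      refine ⟨s.symm d, ?_, Equiv.apply_symm_apply _ _⟩
      rw [mem_sel, Equiv.apply_symm_apply]
      exact ⟨mem_univ _, hd.2.2, hd.2.1⟩
  omega

theorem card_sum_sel (q : D ⊕ (D ⊕ D) → Prop) :
    (sel univ q).card = (sel univ fun d => q (Sum.inl d)).card +
      ((sel univ fun d => q (Sum.inr (Sum.inl d))).card +
        (sel univ fun d => q (Sum.inr (Sum.inr d))).card) := by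
  have e : sel univ q = (sel univ fun d => q (Sum.inl d)).disjSum
      ((sel univ fun d => q (Sum.inr (Sum.inl d))).disjSum
        (sel univ fun d => q (Sum.inr (Sum.inr d)))) := by
    ext x
    rcases x with d | d | d <;> simp [mem_sel]
  rw [e, card_disjSum, card_disjSum]

theorem tr_bl (G : DG V D) (s : Equiv.Perm D) (hbl : G.BL univ) (hrot : G.Rot univ s) :
    (tr G s).BL univ := by
  intro W hW
  have h1 : ((tr G s).cut univ W).card = (sel univ fun d => d ∈ W ∧ G.inv d ∉ W).card +
      ((sel univ fun d => d ∈ W ∧ s d ∉ W).card +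
        (sel univ fun d => d ∈ W ∧ s.symm d ∉ W).card) := by
    unfold DG.cut
    rw [card_sum_sel]
    rfl
  have h2 := card_out_eq s W
  have h3 : (sel univ fun d => d ∈ W ∧ s d ∉ W).card = 0 := by omega
  have h4 : (sel univ fun d => d ∈ W ∧ G.inv d ∉ W).card = 1 := by omega
  have h5 : ∀ d, d ∈ W → s d ∈ W := by
    intro d hd
    by_contra h
    have : d ∈ (sel univ fun d => d ∈ W ∧ s d ∉ W) := mem_sel.2 ⟨mem_univ _, hd, h⟩
    rw [card_eq_zero.1 h3] at this
    exact notMem_empty _ this
  have h5' : (sel univ fun d => d ∈ W ∧ s.symm d ∉ W).card = 0 := by omega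
  have h6 : ∀ d, (s d ∈ W ↔ d ∈ W) := by
    intro d
    constructor
    · intro hd
      by_contra h
      have : s d ∈ (sel univ fun d => d ∈ W ∧ s.symm d ∉ W) := by
        rw [mem_sel, Equiv.symm_apply_apply]
        exact ⟨mem_univ _, hd, h⟩
      rw [card_eq_zero.1 h5'] at this
      exact notMem_empty _ this
    · exact h5 d
  have h7 : ∀ d d', G.src d = G.src d' → (d ∈ W ↔ d' ∈ W) := by
    intro d d' h
    have h8 := hrot.2 d (mem_univ _) d' (mem_univ _) h
    have h9 := sc_inv (f := fun d => d ∈ W) (fun x => propext (h6 x)) h8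
    exact iff_of_eq h9
  apply hbl (W.image G.src)
  rw [← h4]
  congr 1
  ext d
  rw [mem_cut, mem_sel, mem_image, mem_image]
  constructor
  · rintro ⟨-, ⟨d', hd', h8⟩, h9⟩
    have h10 : d ∈ W := (h7 _ _ h8).1 hd'
    exact ⟨mem_univ _, h10, fun h11 => h9 ⟨_, h11, rfl⟩⟩
  · rintro ⟨-, h8, h9⟩
    refine ⟨mem_univ _, ⟨_, h8, rfl⟩, ?_⟩
    rintro ⟨d', hd', h10⟩
    exact h9 ((h7 d' (G.inv d) h10).1 hd')

theorem tr_tor (G : DG V D) (s : Equiv.Perm D) (hT : Tor G s) : Tor (tr G s) (rot D) := by
  intro i' hi'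
  have hi0 : ∀ d, i' (Sum.inl d) = Sum.inl (G.inv d) := fun d => hi' _
  have hi1 : ∀ d, i' (Sum.inr (Sum.inl d)) = Sum.inr (Sum.inr (s d)) := fun d => hi' _
  have hi2 : ∀ d, i' (Sum.inr (Sum.inr d)) = Sum.inr (Sum.inl (s.symm d)) := fun d => hi' _
  let i : Equiv.Perm D := ⟨G.inv, G.inv, G.inv_inv, G.inv_inv⟩
  have hi : ∀ d, i d = G.inv d := fun _ => rfl
  have h1 := hT i hi
  have hcard : Nat.card (D ⊕ (D ⊕ D)) = Nat.card D + (Nat.card D + Nat.card D) := by
    rw [Nat.card_sum, Nat.card_sum]
  have hs : Nat.card D ≤ nc (rot D) := by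
    refine nc_ge (rot D) (fun x => (tr G s).src x) ?_ ?_
    · rintro (d | d | d) <;> rfl
    · intro d
      exact ⟨Sum.inl d, rfl⟩
  have hii : nc i + Nat.card D ≤ nc i' := by
    have h2 : Nat.card (Quotient (Equiv.Perm.SameCycle.setoid i) ⊕ D) ≤ nc i' := by
      refine nc_ge i' (fun x => match x with
        | Sum.inl d => Sum.inl (Quotient.mk _ d)
        | Sum.inr (Sum.inl d) => Sum.inr (s d)
        | Sum.inr (Sum.inr d) => Sum.inr d) ?_ ?_
      · rintro (d | d | d)
        · rw [hi0]
          refine congrArg Sum.inl (Quotient.sound ?_)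
          change i.SameCycle (G.inv d) d
          exact ⟨1, by rw [zpow_one, hi, G.inv_inv]⟩
        · rw [hi1]
        · rw [hi2]
          change Sum.inr (s (s.symm d)) = Sum.inr d
          rw [Equiv.apply_symm_apply]
      · rintro (c | d)
        · obtain ⟨d, rfl⟩ := Quotient.exists_rep c
          exact ⟨Sum.inl d, rfl⟩
        · exact ⟨Sum.inr (Sum.inr d), rfl⟩
    rw [Nat.card_sum] at h2
    exact h2
  have hphi : nc (s * i) + nc s ≤ nc (rot D * i') := by
    have h2 : Nat.card (Quotient (Equiv.Perm.SameCycle.setoid (s * i)) ⊕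
        Quotient (Equiv.Perm.SameCycle.setoid s)) ≤ nc (rot D * i') := by
      refine nc_ge (rot D * i') (fun x => match x with
        | Sum.inl d => Sum.inl (Quotient.mk _ d)
        | Sum.inr (Sum.inl d) => Sum.inl (Quotient.mk _ (s d))
        | Sum.inr (Sum.inr d) => Sum.inr (Quotient.mk _ d)) ?_ ?_
      · rintro (d | d | d)
        · rw [Equiv.Perm.mul_apply, hi0]
          change Sum.inl (Quotient.mk _ (s (G.inv d))) = _
          refine congrArg Sum.inl (Quotient.sound ?_)
          change (s * i).SameCycle (s (G.inv d)) d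
          exact Equiv.Perm.SameCycle.symm ⟨1, by rw [zpow_one, Equiv.Perm.mul_apply, hi]⟩
        · rw [Equiv.Perm.mul_apply, hi1]
          rfl
        · rw [Equiv.Perm.mul_apply, hi2]
          change Sum.inr (Quotient.mk _ (s.symm d)) = _
          refine congrArg Sum.inr (Quotient.sound ?_)
          change s.SameCycle (s.symm d) d
          exact ⟨1, by rw [zpow_one, Equiv.apply_symm_apply]⟩
      · rintro (c | c)
        · obtain ⟨d, rfl⟩ := Quotient.exists_rep c
          exact ⟨Sum.inl d, rfl⟩
        · obtain ⟨d, rfl⟩ := Quotient.exists_rep c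
          exact ⟨Sum.inr (Sum.inr d), rfl⟩
    rw [Nat.card_sum] at h2
    exact h2
  have hcomp : comps (rot D) i' ≤ comps s i := by
    have e0 : ∀ x : D ⊕ (D ⊕ D), conn (rot D) i' (rot D x) x := by
      intro x
      refine (le_sup_left : Equiv.Perm.SameCycle.setoid (rot D) ≤ conn (rot D) i') ?_
      change (rot D).SameCycle _ _
      exact Equiv.Perm.SameCycle.symm ⟨1, by rw [zpow_one]⟩
    have e1 : ∀ x : D ⊕ (D ⊕ D), conn (rot D) i' (i' x) x := by
      intro x
      refine (le_sup_right : Equiv.Perm.SameCycle.setoid i' ≤ conn (rot D) i') ?_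
      change i'.SameCycle _ _
      exact Equiv.Perm.SameCycle.symm ⟨1, by rw [zpow_one]⟩
    have f1 : ∀ d : D, conn (rot D) i' (Sum.inr (Sum.inl d)) (Sum.inl d) := fun d => e0 (Sum.inl d)
    have f2 : ∀ d : D, conn (rot D) i' (Sum.inl d) (Sum.inr (Sum.inr d)) :=
      fun d => e0 (Sum.inr (Sum.inr d))
    have hle : conn s i ≤ Setoid.comap Sum.inl (conn (rot D) i') := by
      refine sup_le (setoid_le fun d => ?_) (setoid_le fun d => ?_)
      · change conn (rot D) i' (Sum.inl (s d)) (Sum.inl d)
        have g1 := e1 (Sum.inr (Sum.inl d))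
        rw [hi1] at g1
        exact (conn (rot D) i').trans (f2 (s d)) ((conn (rot D) i').trans g1 (f1 d))
      · change conn (rot D) i' (Sum.inl (i d)) (Sum.inl d)
        have g1 := e1 (Sum.inl d)
        rw [hi0] at g1
        exact g1
    unfold comps
    refine Nat.card_le_card_of_surjective
      (Quotient.lift (fun d : D => (Quotient.mk (conn (rot D) i') (Sum.inl d)))
        (fun a b h => Quotient.sound (hle h))) ?_
    intro c
    obtain ⟨x, rfl⟩ := Quotient.exists_rep c
    rcases x with d | d | d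
    · exact ⟨Quotient.mk _ d, rfl⟩
    · exact ⟨Quotient.mk _ d, Quotient.sound ((conn (rot D) i').symm (f1 d))⟩
    · exact ⟨Quotient.mk _ d, Quotient.sound (f2 d)⟩
  omega

theorem t_tru : T_TRU := by
  intro V D _ _ G s hbl hrot hT hall
  obtain ⟨lam, hlam, hbal⟩ := hall D (D ⊕ (D ⊕ D)) (tr G s) (rot D) (tr_cub G s)
    (tr_bl G s hbl hrot) (tr_rot G s) (tr_tor G s hT)
  refine ⟨fun d => lam (Sum.inl d), ?_, ?_⟩
  · intro d _
    exact hlam (Sum.inl d) (mem_univ _)
  · intro v k
    have hsrc : ∀ d, G.src (s d) = G.src d := fun d => (hrot.1 d (mem_univ _)).2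
    have hsrc' : ∀ d, G.src (s.symm d) = G.src d := by
      intro d
      have := hsrc (s.symm d)
      rw [Equiv.apply_symm_apply] at this
      exact this.symm
    have h1 := stokes (G := tr G s) cl_univ (f := lam)
      (W := sel univ fun d => G.src d = v) (fun d _ => hbal d) k
    have h2 : ∀ q : D ⊕ (D ⊕ D) → Prop,
        (sel ((tr G s).cut univ (sel univ fun d => G.src d = v)) q).card =
          (sel univ fun d => (G.src d = v ∧ q (Sum.inl d)) ∧ ¬ G.tgt d = v).card := by
      intro q
      have e : sel ((tr G s).cut univ (sel univ fun d => G.src d = v)) q =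
          sel univ fun x => ((tr G s).src x ∈ (sel univ fun d => G.src d = v) ∧
            (tr G s).tgt x ∉ (sel univ fun d => G.src d = v)) ∧ q x := by
        apply sel_congr
        intro x
        rw [mem_cut]
        tauto
      rw [e, card_sum_sel]
      have z1 : (sel univ fun d : D =>
          ((tr G s).src (Sum.inr (Sum.inl d)) ∈ (sel univ fun d => G.src d = v) ∧
            (tr G s).tgt (Sum.inr (Sum.inl d)) ∉ (sel univ fun d => G.src d = v)) ∧
              q (Sum.inr (Sum.inl d))) = ∅ := by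
        ext d
        rw [mem_sel]
        constructor
        · rintro ⟨-, ⟨h3, h4⟩, -⟩
          exfalso
          apply h4
          rw [mem_sel] at h3 ⊢
          refine ⟨mem_univ _, ?_⟩
          have h5 : G.src d = v := h3.2
          change G.src (s d) = v
          rw [hsrc, h5]
        · intro h
          exact absurd h (notMem_empty _)
      have z2 : (sel univ fun d : D =>
          ((tr G s).src (Sum.inr (Sum.inr d)) ∈ (sel univ fun d => G.src d = v) ∧
            (tr G s).tgt (Sum.inr (Sum.inr d)) ∉ (sel univ fun d => G.src d = v)) ∧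
              q (Sum.inr (Sum.inr d))) = ∅ := by
        ext d
        rw [mem_sel]
        constructor
        · rintro ⟨-, ⟨h3, h4⟩, -⟩
          exfalso
          apply h4
          rw [mem_sel] at h3 ⊢
          refine ⟨mem_univ _, ?_⟩
          have h5 : G.src d = v := h3.2
          change G.src (s.symm d) = v
          rw [hsrc', h5]
        · intro h
          exact absurd h (notMem_empty _)
      rw [z1, z2, card_empty, add_zero, add_zero]
      congr 1
      apply sel_congr
      intro d
      rw [mem_sel, mem_sel]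
      change (d ∈ univ ∧ ((d ∈ univ ∧ G.src d = v) ∧ ¬ (G.inv d ∈ univ ∧ G.src (G.inv d) = v)) ∧
        q (Sum.inl d)) ↔ _
      simp only [mem_univ, true_and]
      change _ ↔ (G.src d = v ∧ q (Sum.inl d)) ∧ ¬ G.src (G.inv d) = v
      tauto
    rw [h2 (fun x => lam x = k), h2 (fun x => lam ((tr G s).inv x) = k)] at h1
    have s1 := card_sel_split (univ : Finset D) (fun d => G.src d = v ∧ lam (Sum.inl d) = k)
      (fun d => G.tgt d = v)
    have s2 := card_sel_split (univ : Finset D)
      (fun d => G.src d = v ∧ lam (Sum.inl (G.inv d)) = k) (fun d => G.tgt d = v)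
    have h3 : (sel univ fun d => (G.src d = v ∧ lam (Sum.inl d) = k) ∧ G.tgt d = v).card =
        (sel univ fun d => (G.src d = v ∧ lam (Sum.inl (G.inv d)) = k) ∧ G.tgt d = v).card := by
      rw [← card_sel_inv (G := G) cl_univ
        (fun d => (G.src d = v ∧ lam (Sum.inl d) = k) ∧ G.tgt d = v)]
      congr 1
      apply sel_congr
      intro d
      rw [src_inv, tgt_inv]
      tauto
    have h4 : (sel univ fun d => (G.src d = v ∧ lam ((tr G s).inv (Sum.inl d)) = k) ∧
        ¬ G.tgt d = v).card =
        (sel univ fun d => (G.src d = v ∧ lam (Sum.inl (G.inv d)) = k) ∧ ¬ G.tgt d = v).card := rfl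
    rw [h4] at h1
    rw [s1, s2, h3, h1]

end Pool.Agent.H20.OC.TRU
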